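import Pool.Agent.N939.ME.Stm

/-!
PROJECT ME (helper939), step ME4: the Markov property with functions (helper644).
-/

set_option autoImplicit false
open MeasureTheory ProbabilityTheory Filter Topology

namespace Pool.Agent.N644.ME

open Pool.Agent.N939.ME

section

variable {S : Type} [mS : MeasurableSpace S] {Q : Kernel S S} [IsMarkovKernel Q] {ν : Measure S}
  {Ω : Type} [mΩ : MeasurableSpace Ω] {μ : Measure Ω} [IsProbabilityMeasure μ] {X : ℕ → Ω → S}

lemma FX_le (h : MC Q ν μ X) (n : ℕ) : FX X n ≤ mΩ := (Fil X h.meas).le n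

lemma X_FX (X : ℕ → Ω → S) (n : ℕ) : Measurable[FX X n] (X n) := by
  have h1 : MeasurableSpace.comap (X n) mS ≤ FX X n := le_iSup₂_of_le n le_rfl le_rfl
  intro A hA
  exact h1 _ ⟨A, hA, rfl⟩

lemma step_set (h : MC Q ν μ X) (n : ℕ) {s : Set Ω} (hs : MeasurableSet[FX X n] s) {A : Set S}
    (hA : MeasurableSet A) :
    μ (s ∩ X (n + 1) ⁻¹' A) = ∫⁻ ω in s, Q (X n ω) A ∂μ := by
  have hs' : MeasurableSet s := FX_le h n s hs
  have hXA : MeasurableSet (X (n + 1) ⁻¹' A) := h.meas _ hA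
  have hint : Integrable ((X (n + 1) ⁻¹' A).indicator (fun _ => (1 : ℝ))) μ :=
    (integrable_const 1).indicator hXA
  have e1 := setIntegral_condExp (FX_le h n) hint hs
  have e2 : ∫ ω in s, (μ[(X (n + 1) ⁻¹' A).indicator (fun _ => (1 : ℝ)) | FX X n]) ω ∂μ =
      ∫ ω in s, (Q (X n ω) A).toReal ∂μ := by
    refine setIntegral_congr_ae hs' ?_
    filter_upwards [h.step n A hA] with ω hω _
    exact hω
  have e3 : ∫ ω in s, (X (n + 1) ⁻¹' A).indicator (fun _ => (1 : ℝ)) ω ∂μ =
      (μ (s ∩ X (n + 1) ⁻¹' A)).toReal := by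
    rw [setIntegral_indicator hXA, setIntegral_const, smul_eq_mul, mul_one]
    rfl
  have hm : Measurable fun ω => Q (X n ω) A := (Q.measurable_coe hA).comp (h.meas n)
  have e4 : ∫ ω in s, (Q (X n ω) A).toReal ∂μ = (∫⁻ ω in s, Q (X n ω) A ∂μ).toReal :=
    integral_toReal hm.aemeasurable (ae_of_all _ fun ω => measure_lt_top _ _)
  have hfin : ∫⁻ ω in s, Q (X n ω) A ∂μ ≠ ⊤ := by
    have h1 : ∫⁻ ω in s, Q (X n ω) A ∂μ ≤ ∫⁻ ω in s, 1 ∂μ :=
      lintegral_mono fun ω => prob_le_one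
    rw [setLIntegral_const, one_mul] at h1
    exact ne_top_of_le_ne_top (measure_ne_top _ _) h1
  have e5 : (μ (s ∩ X (n + 1) ⁻¹' A)).toReal = (∫⁻ ω in s, Q (X n ω) A ∂μ).toReal := by
    rw [← e3, ← e4, ← e2, e1]
  exact (ENNReal.toReal_eq_toReal_iff' (measure_ne_top _ _) hfin).1 e5

lemma map_restrict (h : MC Q ν μ X) (n : ℕ) {s : Set Ω} (hs : MeasurableSet[FX X n] s) :
    (μ.restrict s).map (X (n + 1)) = ((μ.restrict s).map (X n)).bind Q := by
  ext A hA
  rw [Measure.map_apply (h.meas _) hA, Measure.restrict_apply (h.meas _ hA),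
    Measure.bind_apply hA Q.aemeasurable, lintegral_map (Q.measurable_coe hA) (h.meas n),
    Set.inter_comm]
  exact step_set h n hs hA

lemma map_X (h : MC Q ν μ X) (hν : ν.bind Q = ν) (n : ℕ) : μ.map (X n) = ν := by
  induction n with
  | zero => exact h.init
  | succ n ih =>
    have h1 := map_restrict h n (s := Set.univ) (@MeasurableSet.univ _ (FX X n))
    rw [Measure.restrict_univ, ih, hν] at h1
    exact h1

lemma integral_bd {α : Type} [MeasurableSpace α] {κ : Kernel α S} [IsMarkovKernel κ]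
    {m : Measure α} [SFinite m] {g : S → ℝ} (hg : Integrable g (m.bind κ)) :
    ∫ y, g y ∂(m.bind κ) = ∫ x, ∫ y, g y ∂(κ x) ∂m := by
  have e : m.bind κ = (κ ∘ₖ Kernel.const Unit m) () := Measure.comp_eq_comp_const_apply
  rw [e] at hg ⊢
  rw [ProbabilityTheory.Kernel.integral_comp hg, Kernel.const_apply]

lemma int_comp (h : MC Q ν μ X) (hν : ν.bind Q = ν) (n : ℕ) {g : S → ℝ} (hg : Integrable g ν) :
    Integrable (fun ω => g (X n ω)) μ := by
  have h1 := map_X h hν n
  rw [← h1] at hg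
  exact hg.comp_measurable (h.meas n)

theorem condE (h : MC Q ν μ X) (hν : ν.bind Q = ν) (n : ℕ) {g : S → ℝ} (hgm : Measurable g)
    (hg : Integrable g ν) (hT : Measurable (TT Q g)) (hTi : Integrable (TT Q g) ν) :
    μ[fun ω => g (X (n + 1) ω) | FX X n] =ᵐ[μ] fun ω => TT Q g (X n ω) := by
  symm
  refine ae_eq_condExp_of_forall_setIntegral_eq (FX_le h n) (int_comp h hν (n + 1) hg)
    (fun s _ _ => (int_comp h hν n hTi).integrableOn) (fun s hs _ => ?_) ?_
  · have e1 : ∫ ω in s, g (X (n + 1) ω) ∂μ = ∫ y, g y ∂((μ.restrict s).map (X (n + 1))) :=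
      (integral_map (h.meas _).aemeasurable hgm.aestronglyMeasurable).symm
    have hle : (μ.restrict s).map (X (n + 1)) ≤ ν := by
      rw [← map_X h hν (n + 1)]
      exact Measure.map_mono Measure.restrict_le_self (h.meas _)
    have hint : Integrable g ((μ.restrict s).map (X (n + 1))) := hg.mono_measure hle
    rw [e1]
    rw [map_restrict h n hs] at hint ⊢
    rw [integral_bd hint, integral_map (h.meas n).aemeasurable]
    · rfl
    · exact hT.aestronglyMeasurable
  · have h1 : Measurable[FX X n] (fun ω => TT Q g (X n ω)) := hT.comp (X_FX X n)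
    exact h1.stronglyMeasurable.aestronglyMeasurable

end

theorem ml (hTT : S_TT) : S_ML := by
  intro S _ Q _ ν _ hν Ω _ μ _ X h
  obtain ⟨t1, t2, -⟩ := hTT S Q ν hν
  refine ⟨map_X h hν, fun n g hgm hg => condE h hν n hgm hg (t1 g hgm) (t2 g hg).1, ?_⟩
  intro n g Z hgm hg hZ hint
  have hc := condE h hν n hgm hg (t1 g hgm) (t2 g hg).1
  have h1 : μ[fun ω => Z ω * g (X (n + 1) ω) | FX X n] =ᵐ[μ]
      fun ω => Z ω * TT Q g (X n ω) := by
    have h2 := condExp_mul_of_stronglyMeasurable_left (μ := μ) (m := FX X n)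
      hZ.stronglyMeasurable (g := fun ω => g (X (n + 1) ω)) hint
      (int_comp h hν (n + 1) hg)
    refine h2.trans ?_
    filter_upwards [hc] with ω hω
    rw [Pi.mul_apply, hω]
  constructor
  · exact integrable_condExp.congr h1
  · rw [← integral_congr_ae h1, integral_condExp (FX_le h n)]

end Pool.Agent.N644.ME
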